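import Pool.Agent.T3H29.DS.Fin2

set_option autoImplicit false

/-!
# Almost primes `n ^ 2 - 2` (and `n ^ 2 + a`) with `n` an integer with restricted digits and a prescribed residue
of its sum of digits, or of another linear digital function
-/

namespace Pool.Agent.Results.MP_0b748d_nt.DigitalResidueClasses

open Finset Filter

/-- The integers `n < b ^ k` with restricted digits: for every place `i < k` the digit `n / b ^ i % b` of `n`
in base `b` belongs to `D i`. -/
def restricted (b : ℕ) (D : ℕ → Finset ℕ) (k : ℕ) : Finset ℕ :=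
  (range (b ^ k)).filter (fun n : ℕ => ∀ i < k, n / b ^ i % b ∈ D i)

/-- The linear digital function with the coefficients `c`: the sum over the places `i < k` of `c i` times the
digit of `n` in base `b` at the place `i`. -/
def digital (b : ℕ) (c : ℕ → ℤ) (k n : ℕ) : ℤ := ∑ i ∈ range k, c i * ((n / b ^ i % b : ℕ) : ℤ)

open Classical in
/-- The number of the places `i < k - 1` at which `b * c i - c (i + 1)` is coprime to `M`. -/
noncomputable def places (b : ℕ) (c : ℕ → ℤ) (M k : ℕ) : ℕ :=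
  ((range (k - 1)).filter (fun i => IsCoprime ((b : ℤ) * c i - c (i + 1)) (M : ℤ))).card

open Classical in
/-- The number of the elements `n` of `S` whose value `f n` is congruent to `v` modulo `M` and such that
`n ^ 2 + a` has at most `r` prime factors (counted with multiplicity), all of them at least `w`. -/
noncomputable def almostPrimes (a : ℤ) (r : ℕ) (w : ℝ) (f : ℕ → ℤ) (M : ℕ) (v : ℤ) (S : Finset ℕ) : ℕ :=
  (S.filter (fun n : ℕ => (M : ℤ) ∣ f n - v ∧ ((n : ℤ) ^ 2 + a).natAbs.primeFactorsList.length ≤ r ∧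
    ∀ p : ℕ, p.Prime → (p : ℤ) ∣ (n : ℤ) ^ 2 + a → w ≤ p)).card

open Classical in
theorem card_good (a : ℤ) (r : ℕ) (w : ℝ) (b : ℕ) (D : ℕ → Finset ℕ) (c : ℕ → ℤ) (M : ℕ) (v : ℤ) (k : ℕ) :
    (Pool.Agent.T3H29.DG.good a r w (Pool.Agent.T3H29.DS.SR b D c M v k)).card =
      almostPrimes a r w (digital b c k) M v (restricted b D k) := by
  unfold Pool.Agent.T3H29.DG.good Pool.Agent.T3H29.DS.SR almostPrimes
  rw [filter_filter]
  congr 1

open Classical in
theorem card_goodp (b : ℕ) (c : ℕ → ℤ) (M k : ℕ) :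
    (Pool.Agent.T3H29.DS.goodp b c M k).card = places b c M k := by
  unfold Pool.Agent.T3H29.DS.goodp places
  congr 1

/-- **Almost prime values of `n ^ 2 + a` at the integers `n` with restricted digits and with a prescribed
residue of a linear digital function.**  Let `-a` be no perfect square, for instance `a = -2`, and let `r = 5`,
`1 / 2 ≤ t < 1`, `z = 2 t / 5`, or `r = 4`, `269 / 500 ≤ t < 1`, `z = t / 4`, or `r = 3`, `29 / 40 ≤ t < 1`,
`z = t / 4`.  Let `0 < μ < min (1 / 2, 1 - t)`.  For every large base `b` there is a `δ > 0` such that for every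
`θ > 0` and all large `k` the following holds for all moduli `1 ≤ M ≤ k ^ (1 / 5)`, all sets
`D 0, …, D (k - 1)` of digits, each of which contains all but at most `b ^ μ` of the digits, all integers
`c 0, c 1, …` such that `b * c i - c (i + 1)` is coprime to `M` for at least `θ k` of the places `i < k - 1`
(for instance `c i = 1` for all `i`, the sum of digits, if `M` is coprime to `b - 1`), and all residues `v`: at
least `δ |S| / (M k)` of the elements `n` of the set `S` of the integers `n < b ^ k` all of whose digits are in the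
respective sets are such that `∑ c i * digit i of n` is congruent to `v` modulo `M` and `n ^ 2 + a` has at most
`r` prime factors, all of them at least `b ^ (k z)`. -/
theorem result (a : ℤ) (ha : ¬ IsSquare (-a)) (r : ℕ) (t z : ℝ)
    (hpar : (r = 5 ∧ 1 / 2 ≤ t ∧ z = 2 / 5 * t) ∨ (r = 4 ∧ 269 / 500 ≤ t ∧ z = t / 4) ∨
      (r = 3 ∧ 29 / 40 ≤ t ∧ z = t / 4)) (ht : t < 1) (μ : ℝ) (hμ0 : 0 < μ) (hμ1 : μ < 1 / 2)
    (hμt : μ < 1 - t) :
    ∀ᶠ b : ℕ in atTop, ∃ δ : ℝ, 0 < δ ∧ ∀ θ : ℝ, 0 < θ → ∀ᶠ k : ℕ in atTop,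
      ∀ M : ℕ, 1 ≤ M → M ^ 5 ≤ k → ∀ D : ℕ → Finset ℕ,
      (∀ i < k, D i ⊆ range b ∧ ((range b \ D i).card : ℝ) ≤ (b : ℝ) ^ μ) →
      ∀ c : ℕ → ℤ, θ * k ≤ places b c M k → ∀ v : ℤ,
      δ * (restricted b D k).card / (M * k) ≤
        (almostPrimes a r (((b : ℝ) ^ k) ^ z) (digital b c k) M v (restricted b D k) : ℝ) := by
  rcases hpar with ⟨rfl, ht0, rfl⟩ | ⟨rfl, ht0, rfl⟩ | ⟨rfl, ht0, rfl⟩
  · have hc := Pool.Agent.Y882.KW.cond_B t (20 / 31) (by linarith) (by norm_num) (by norm_num)
    obtain ⟨b0, H⟩ := Pool.Agent.T3H29.DS.fin2 a ha 5 t (2 / 5 * t) (9 / 10 * t) (20 / 31)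
      (1001 / 500) (by linarith) (by linarith) (by linarith) ht (by linarith)
      (by linarith) (by norm_num) hc (by norm_num) (by
        have h3 : (1001 / 500 : ℝ) / (9 / 10 * t) ≤ 4449 / 1000 := by
          rw [div_le_iff₀ (by linarith)]
          linarith
        push_cast
        norm_num at h3 ⊢
        linarith) μ hμ0 hμ1 hμt
    refine eventually_atTop.2 ⟨b0, fun b hb => ?_⟩
    obtain ⟨δ, hδ, H1⟩ := H b hb
    refine ⟨δ, hδ, fun θ hθ => ?_⟩
    obtain ⟨k0, HK⟩ := H1 θ hθ
    refine eventually_atTop.2 ⟨k0, fun k hk M hM hMk D hD c hc v => ?_⟩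
    have h5 := HK k hk M hM hMk D hD c (by rw [card_goodp]; exact hc) v
    rw [card_good] at h5
    exact h5
  · have hc := Pool.Agent.Y882.KW.cond_A t (8 / 9) (by linarith) (by norm_num) (by norm_num)
    obtain ⟨b0, H⟩ := Pool.Agent.T3H29.DS.fin2 a ha 4 t (t / 4) (24 / 25 * t) (8 / 9)
      (2001 / 1000) (by linarith) (by linarith) (by linarith) ht (by linarith)
      (by linarith) (by norm_num) hc (by norm_num) (by
        have h3 : (2001 / 1000 : ℝ) / (24 / 25 * t) ≤ 3875 / 1000 := by
          rw [div_le_iff₀ (by linarith)]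
          linarith
        push_cast
        norm_num at h3 ⊢
        linarith) μ hμ0 hμ1 hμt
    refine eventually_atTop.2 ⟨b0, fun b hb => ?_⟩
    obtain ⟨δ, hδ, H1⟩ := H b hb
    refine ⟨δ, hδ, fun θ hθ => ?_⟩
    obtain ⟨k0, HK⟩ := H1 θ hθ
    refine eventually_atTop.2 ⟨k0, fun k hk M hM hMk D hD c hc v => ?_⟩
    have h5 := HK k hk M hM hMk D hD c (by rw [card_goodp]; exact hc) v
    rw [card_good] at h5
    exact h5
  · have hc := Pool.Agent.Y882.KW.cond_A t (8 / 9) (by linarith) (by norm_num) (by norm_num)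
    obtain ⟨b0, H⟩ := Pool.Agent.T3H29.DS.fin2 a ha 3 t (t / 4) (24 / 25 * t) (8 / 9)
      (2001 / 1000) (by linarith) (by linarith) (by linarith) ht (by linarith)
      (by linarith) (by norm_num) hc (by norm_num) (by
        have h3 : (2001 / 1000 : ℝ) / (24 / 25 * t) ≤ 2875 / 1000 := by
          rw [div_le_iff₀ (by linarith)]
          linarith
        push_cast
        norm_num at h3 ⊢
        linarith) μ hμ0 hμ1 hμt
    refine eventually_atTop.2 ⟨b0, fun b hb => ?_⟩
    obtain ⟨δ, hδ, H1⟩ := H b hb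
    refine ⟨δ, hδ, fun θ hθ => ?_⟩
    obtain ⟨k0, HK⟩ := H1 θ hθ
    refine eventually_atTop.2 ⟨k0, fun k hk M hM hMk D hD c hc v => ?_⟩
    have h5 := HK k hk M hM hMk D hD c (by rw [card_goodp]; exact hc) v
    rw [card_good] at h5
    exact h5

end Pool.Agent.Results.MP_0b748d_nt.DigitalResidueClasses
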