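import Pool.Agent.T2h76Q.Gm5
import Pool.Agent.T2h76Q.Hw2
import Pool.Agent.T2h76Q.Sys2
import Pool.Agent.Y677.RSZ.Fin

set_option autoImplicit false

/-!
# Narrow arithmetic progressions of `n` with `n ^ 2 - 2` a product of at most two primes
-/

namespace Pool.Agent.Results.MP_0b748d_nt.P2NarrowProgressions

open Finset Filter

open Classical in
/-- The set of the `n` in `(N, N + H]` such that `n ^ 2 - 2` has at most two prime factors, counted with
multiplicity, all of them at least `N ^ (6 / 25)`. -/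
noncomputable def PP (N H : ℕ) : Finset ℕ :=
  (Ioc N (N + H)).filter (fun n => (n ^ 2 - 2).primeFactorsList.length ≤ 2 ∧
    ∀ p : ℕ, p.Prime → p ∣ n ^ 2 - 2 → (N : ℝ) ^ (6 / 25 : ℝ) ≤ p)

/-- `n` is a term of an arithmetic progression of `l` terms with difference between `1` and `D` all of
whose terms are in `A`. -/
def InAP (A : Finset ℕ) (l : ℕ) (D : ℝ) (n : ℕ) : Prop :=
  ∃ u d : ℕ, 1 ≤ d ∧ (d : ℝ) ≤ D ∧ (∀ i < l, u + i * d ∈ A) ∧ ∃ i < l, n = u + i * d

open Classical in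
/-- **A theorem of Szemerédi type for `n ^ 2 - 2` with at most two prime factors.** There is `c > 0` such
that for every `l ≥ 2` and every `ε > 0` there are `B` and `N₁` such that for all `N ≥ N₁` and all `H` with
`N ^ 0.999 ≤ H ≤ N`: the set `PP N H` of the `n ∈ (N, N + H]` such that `n ^ 2 - 2` is a product of at most
two primes, both at least `N ^ (6 / 25)`, has at least `c * H / log N` elements, and for EVERY subset `A` of
it, all but at most `ε * #(PP N H)` of the elements of `A` are terms of `l`-term arithmetic progressions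
contained in `A` with difference at most `(log N) ^ B`. -/
theorem result : ∃ c : ℝ, 0 < c ∧ ∀ (l : ℕ) (ε : ℝ), 2 ≤ l → 0 < ε → ∃ B N₁ : ℕ, ∀ N H : ℕ, N₁ ≤ N →
    (N : ℝ) ^ (999 / 1000 : ℝ) ≤ H → H ≤ N →
    c * (H / Real.log N) ≤ ((PP N H).card : ℝ) ∧
    ∀ A : Finset ℕ, A ⊆ PP N H →
      ((A.filter (fun n => ¬ InAP A l (Real.log N ^ B) n)).card : ℝ) ≤ ε * ((PP N H).card : ℝ) := by
  obtain ⟨c, N1, hc, hcount⟩ := Pool.Agent.T2h76Q.count Pool.Agent.T2h76Q.hasWeyl2
  refine ⟨c, hc, ?_⟩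
  intro l ε hl hε
  obtain ⟨B, hB⟩ := Pool.Agent.Y677.RSZ.narrow (fun _ : Fin 1 => Pool.Agent.TH464.PW.quad 1 0 (-2))
    Pool.Agent.T2h76Q.sysm2 (999 / 1000) (by norm_num) 5 (by norm_num) l hl (ε * c) (by positivity)
  obtain ⟨N0, hN0⟩ := eventually_atTop.1 hB
  have ev : ∀ᶠ N : ℕ in atTop, (2 : ℝ) < (N : ℝ) ^ (1 / 50 : ℝ) :=
    ((tendsto_rpow_atTop (by norm_num)).comp tendsto_natCast_atTop_atTop).eventually_gt_atTop _
  obtain ⟨N2, hN2⟩ := eventually_atTop.1 ev
  refine ⟨B, max (max N1 N0) (max N2 3), ?_⟩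
  intro N H hNN hH hHN
  have hN1 : N1 ≤ N := ((le_max_left _ _).trans (le_max_left _ _)).trans hNN
  have hN0' : N0 ≤ N := ((le_max_right _ _).trans (le_max_left _ _)).trans hNN
  have hN2' := hN2 N (((le_max_left _ _).trans (le_max_right _ _)).trans hNN)
  have hN3 : 3 ≤ N := ((le_max_right _ _).trans (le_max_right _ _)).trans hNN
  have hNr : (3 : ℝ) ≤ N := by exact_mod_cast hN3
  have hNp : (0 : ℝ) < N := by linarith
  have hlN : 0 < Real.log N := Real.log_pos (by linarith)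
  have hlow : c * (H / Real.log N) ≤ ((PP N H).card : ℝ) := by
    have h1 := hcount N H hN1 hHN hH 1 0 le_rfl (by
      rw [Nat.cast_one]
      exact Real.one_le_rpow (by linarith) (by norm_num)) (by
      intro p hp h2 _
      exact hp.one_lt.ne' (Nat.dvd_one.1 h2))
    rw [Nat.cast_one, one_mul] at h1
    refine h1.trans ?_
    norm_cast
    apply card_le_card_of_injOn Int.toNat
    · intro n hn
      rw [mem_coe, mem_filter, mem_Ioc] at hn
      obtain ⟨⟨a1, a2⟩, a3, a4, a5⟩ := hn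
      obtain ⟨m, rfl⟩ : ∃ m : ℕ, n = m := ⟨n.toNat, by omega⟩
      unfold PP
      rw [mem_coe, mem_filter, mem_Ioc, Int.toNat_natCast]
      have e0 : ((m : ℤ) ^ 2 - 2) = ((m ^ 2 - 2 : ℕ) : ℤ) := by
        have hm2 : 2 ≤ m := by omega
        have : 2 ≤ m ^ 2 := by nlinarith
        rw [Nat.cast_sub this]
        push_cast
        ring
      have e : (((m : ℤ) ^ 2 - 2).natAbs : ℕ) = m ^ 2 - 2 := by
        rw [e0, Int.natAbs_natCast]
      rw [e] at a4
      refine ⟨⟨by omega, by omega⟩, a4, ?_⟩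
      intro p hp hpm
      apply a5 p hp
      rw [e0]
      exact_mod_cast hpm
    · intro n hn n' hn' hnn
      rw [mem_coe, mem_filter, mem_Ioc] at hn hn'
      have h2 : 0 ≤ n := by omega
      have h3 : 0 ≤ n' := by omega
      have : (n.toNat : ℤ) = (n'.toNat : ℤ) := by exact_mod_cast hnn
      rwa [Int.toNat_of_nonneg h2, Int.toNat_of_nonneg h3] at this
  refine ⟨hlow, ?_⟩
  intro A hA
  have h1 := hN0 N hN0' H hH hHN (A : Set ℕ) (by
    intro m hm i p hp hd
    rw [Pool.Agent.TH464.PW.quad_eval] at hd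
    have hm' : m ∈ PP N H := hA hm
    unfold PP at hm'
    rw [mem_filter, mem_Ioc] at hm'
    have e : (1 : ℤ) * (m : ℤ) ^ 2 + 0 * m + (-2) = ((m ^ 2 - 2 : ℕ) : ℤ) := by
      have hm2 : 2 ≤ m := by omega
      have : 2 ≤ m ^ 2 := by nlinarith
      rw [Nat.cast_sub this]
      push_cast
      ring
    rw [e] at hd
    have h2 := hm'.2.2 p hp (by exact_mod_cast hd)
    refine lt_of_lt_of_le ?_ h2
    have h3 : (m : ℝ) ≤ 2 * N := by
      have h4 : m ≤ 2 * N := by omega
      exact_mod_cast h4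
    have hmpos : (0 : ℝ) ≤ m := Nat.cast_nonneg m
    push_cast
    calc (m : ℝ) ^ (1 / (5 : ℝ)) ≤ (2 * (N : ℝ)) ^ (1 / (5 : ℝ)) :=
          Real.rpow_le_rpow hmpos h3 (by norm_num)
      _ = (2 : ℝ) ^ (1 / (5 : ℝ)) * (N : ℝ) ^ (1 / (5 : ℝ)) := Real.mul_rpow (by norm_num) hNp.le
      _ < ((N : ℝ) ^ (1 / 50 : ℝ)) * (N : ℝ) ^ (1 / (5 : ℝ)) := by
          apply mul_lt_mul_of_pos_right _ (by positivity)
          calc (2 : ℝ) ^ (1 / (5 : ℝ)) ≤ (2 : ℝ) ^ (1 : ℝ) :=
                Real.rpow_le_rpow_of_exponent_le (by norm_num) (by norm_num)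
            _ = 2 := Real.rpow_one _
            _ < _ := hN2'
      _ = (N : ℝ) ^ (1 / 50 + 1 / 5 : ℝ) := by rw [Real.rpow_add hNp]
      _ ≤ _ := Real.rpow_le_rpow_of_exponent_le (by linarith) (by norm_num))
  rw [Fintype.card_fin, pow_one] at h1
  have h2 : ((A.filter (fun n => ¬ InAP A l (Real.log N ^ B) n)).card : ℝ) ≤
      (Pool.Agent.TH977.PW.N (Pool.Agent.Y677.RSZ.Outside (A : Set ℕ) l (Real.log N ^ B) N (N + H)) N
        (N + H) : ℝ) := by
    unfold Pool.Agent.TH977.PW.N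
    norm_cast
    apply card_le_card
    intro n hn
    rw [mem_filter] at hn
    have hnP := hA hn.1
    unfold PP at hnP
    rw [mem_filter] at hnP
    rw [mem_filter]
    refine ⟨hnP.1, hn.1, fun hP => hn.2 ?_⟩
    obtain ⟨u, d, h3, h4, h5, h6⟩ := hP
    exact ⟨u, d, h3, h4, fun i hi => (h5 i hi).1, h6⟩
  refine h2.trans (h1.trans ?_)
  calc ε * c * H / Real.log N = ε * (c * (H / Real.log N)) := by ring
    _ ≤ ε * ((PP N H).card : ℝ) := mul_le_mul_of_nonneg_left hlow hε.le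

end Pool.Agent.Results.MP_0b748d_nt.P2NarrowProgressions
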