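import Pool.Agent.T2h76Q.Gm5
import Pool.Agent.T2h76Q.Hw2

set_option autoImplicit false

/-!
# Products of at most two primes among the values of `n ^ 2 - 2` in short intervals
-/

namespace Pool.Agent.Results.MP_0b748d_nt.P2ShortIntervals

open Finset

open Classical in
/-- **The values of `n ^ 2 - 2` with at most two prime factors in all short intervals and in residue
classes.** There are `c > 0` and `N₁` such that for all `N ≥ N₁`, for every interval `(N, N + H]` with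
`N ^ 0.999 ≤ H ≤ N`, and for every residue class `u` modulo `q` with `1 ≤ q ≤ N ^ (1 / 50000)` and
`(u ^ 2 - 2, q) = 1`, there are at least `c * H / (q * log N)` numbers `n ≡ u (mod q)` in `(N, N + H]` such
that `n ^ 2 - 2` has at most two prime factors, counted with multiplicity, all of them at least
`N ^ (6 / 25)`. -/
theorem result : ∃ c : ℝ, 0 < c ∧ ∃ N₁ : ℕ, ∀ N H : ℕ, N₁ ≤ N →
    (N : ℝ) ^ (999 / 1000 : ℝ) ≤ H → H ≤ N →
    ∀ (q : ℕ) (u : ℤ), 1 ≤ q → (q : ℝ) ≤ (N : ℝ) ^ (1 / 50000 : ℝ) → IsCoprime (u ^ 2 - 2) (q : ℤ) →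
    c * (H / (q * Real.log N)) ≤
      (((Ioc N (N + H)).filter (fun n : ℕ => (n : ℤ) ≡ u [ZMOD q] ∧
        (n ^ 2 - 2).primeFactorsList.length ≤ 2 ∧
        ∀ p : ℕ, p.Prime → p ∣ n ^ 2 - 2 → (N : ℝ) ^ (6 / 25 : ℝ) ≤ p)).card : ℝ) := by
  obtain ⟨c, N1, hc, h⟩ := Pool.Agent.T2h76Q.count Pool.Agent.T2h76Q.hasWeyl2
  refine ⟨c, hc, max N1 2, ?_⟩
  intro N H hN hH hHN q u hq1 hqN hu
  have h1 := h N H ((le_max_left _ _).trans hN) hHN hH q u hq1 hqN (by
    intro p hp hpq hpu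
    have h2 : (p : ℤ) ∣ 1 := by
      obtain ⟨a, b, hab⟩ := hu
      rw [← hab]
      exact dvd_add (hpu.mul_left _) (Dvd.dvd.mul_left (by exact_mod_cast hpq) _)
    have h3 : p ∣ 1 := by exact_mod_cast h2
    exact hp.one_lt.ne' (Nat.dvd_one.1 h3))
  have hN2 : 2 ≤ N := (le_max_right _ _).trans hN
  refine h1.trans ?_
  norm_cast
  apply card_le_card_of_injOn Int.toNat
  · intro n hn
    rw [mem_coe, mem_filter, mem_Ioc] at hn
    obtain ⟨⟨a1, a2⟩, a3, a4, a5⟩ := hn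
    obtain ⟨m, rfl⟩ : ∃ m : ℕ, n = m := ⟨n.toNat, by omega⟩
    rw [mem_coe, mem_filter, mem_Ioc, Int.toNat_natCast]
    have hm2 : 2 ≤ m := by omega
    have e0 : ((m : ℤ) ^ 2 - 2) = ((m ^ 2 - 2 : ℕ) : ℤ) := by
      have : 2 ≤ m ^ 2 := by nlinarith
      rw [Nat.cast_sub this]
      push_cast
      ring
    have e : (((m : ℤ) ^ 2 - 2).natAbs : ℕ) = m ^ 2 - 2 := by
      rw [e0, Int.natAbs_natCast]
    rw [e] at a4
    refine ⟨⟨by omega, by omega⟩, ?_, a4, ?_⟩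
    · exact ((Int.modEq_iff_dvd).2 a3).symm
    · intro p hp hpm
      apply a5 p hp
      rw [e0]
      exact_mod_cast hpm
  · intro n hn n' hn' hnn
    rw [mem_coe, mem_filter, mem_Ioc] at hn hn'
    have h2 : 0 ≤ n := by omega
    have h3 : 0 ≤ n' := by omega
    have : (n.toNat : ℤ) = (n'.toNat : ℤ) := by exact_mod_cast hnn
    rwa [Int.toNat_of_nonneg h2, Int.toNat_of_nonneg h3] at this

end Pool.Agent.Results.MP_0b748d_nt.P2ShortIntervals
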